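import Pool.Agent.H670R4.Incomp
import Pool.Agent.H670R4.PSPoly

/-!
# Edge editing for two forbidden graphs: a polynomial kernel from two incompressible problems
-/

set_option autoImplicit false

namespace Pool.Agent.Results.MP_2df4ce_lc.PseudoSplitEditing

open Pool.Agent.H670R4
open Pool.Agent.CK (CoNPSubsetNPPoly)

/-- For `M = editing`, `H₁ = C4` and `H₂ = 2K2`: if coNP is not contained in NP/poly, then the
`C4`-free editing problem and the `2K2`-free editing problem have no polynomial kernel; and the
`{C4, 2K2}`-free editing problem has a polynomial kernel. -/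
theorem result :
    (¬ CoNPSubsetNPPoly → ¬ HasPolyKernel ModType.editing [C4] ∧
      ¬ HasPolyKernel ModType.editing [TwoK2]) ∧
    HasPolyKernel ModType.editing [C4, TwoK2] :=
  ⟨fun h => ⟨fun h1 => h (incomp_C4 h1), fun h2 => h (incomp_2K2 h2)⟩, hasPolyKernel_PS⟩

end Pool.Agent.Results.MP_2df4ce_lc.PseudoSplitEditing
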